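import Pool.Agent.Y106.QT.Count

/-!
# Matrices with a zero column
-/

open Finset Matrix
open scoped Classical

set_option linter.unusedSectionVars false

namespace Pool.Agent.Y106.QT

variable {F : Type*} [Field F] [Fintype F]

/-- Insertion of a zero column and of a row in the place `k`, composed with the reflection in the
antidiagonal. -/
def ins {m : ℕ} (k : Fin (m + 1)) (Z : Matrix (Fin m) (Fin m) F) (v : Fin m → F) :
    Matrix (Fin (m + 1)) (Fin (m + 1)) F :=
  Matrix.of (k.insertNth (α := fun _ => Fin (m + 1) → F)
    (k.insertNth (α := fun _ => F) 0 (fun j => v j.rev))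
    (fun i => k.insertNth (α := fun _ => F) 0 (fun j => Z j.rev i.rev)))

section Ins

variable {m : ℕ} (k : Fin (m + 1)) (Z : Matrix (Fin m) (Fin m) F) (v : Fin m → F)

@[simp] lemma ins_kk : ins k Z v k k = 0 := by simp [ins]

@[simp] lemma ins_ks (j : Fin m) : ins k Z v k (k.succAbove j) = v j.rev := by simp [ins]

@[simp] lemma ins_sk (i : Fin m) : ins k Z v (k.succAbove i) k = 0 := by simp [ins]

@[simp] lemma ins_ss (i j : Fin m) :
    ins k Z v (k.succAbove i) (k.succAbove j) = Z j.rev i.rev := by simp [ins]

lemma ins_col (i : Fin (m + 1)) : ins k Z v i k = 0 := by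
  rcases Fin.eq_self_or_eq_succAbove k i with h | ⟨i, h⟩ <;> subst h <;> simp

end Ins

/-- The number of matrices with a zero column. -/
lemma card_colz (m : ℕ) (k : Fin (m + 1)) :
    (colz F (m + 1) k).card = (pairs F m (m - k)).card := by
  symm
  refine Finset.card_nbij' (fun p => ins k p.1 p.2)
    (fun X => (Matrix.of fun i j => X (k.succAbove j.rev) (k.succAbove i.rev),
      fun i => X k (k.succAbove i.rev))) ?_ ?_ ?_ ?_
  · rintro ⟨Z, v⟩ hp
    obtain ⟨⟨h1, h2⟩, h3, h4⟩ := mem_pairs.1 hp
    simp only at h1 h2 h3 h4
    refine mem_colz.2 ⟨⟨?_, ?_⟩, fun i => ins_col k Z v i⟩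
    · change IsStrictUpper (ins k Z v)
      intro i j hij
      rcases Fin.eq_self_or_eq_succAbove k j with h | ⟨j, h⟩
      · subst h; exact ins_col _ Z v i
      · subst h
        rcases Fin.eq_self_or_eq_succAbove k i with h | ⟨i, h⟩
        · subst h
          rw [ins_ks]
          apply h4
          have h5 : (j : ℕ) < i := by
            by_contra h6
            rw [Fin.succAbove_of_le_castSucc _ _ (by
              rw [Fin.le_def, Fin.val_castSucc]; omega), Fin.le_def, Fin.val_succ] at hij
            omega
          rw [Fin.val_rev]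
          omega
        · subst h
          rw [ins_ss]
          apply h1
          rw [Fin.rev_le_rev]
          exact (Fin.strictMono_succAbove k).le_iff_le.1 hij
    · change ins k Z v * ins k Z v = 0
      ext i j
      rw [Matrix.mul_apply, Fin.sum_univ_succAbove _ k, ins_col, zero_mul, zero_add]
      rcases Fin.eq_self_or_eq_succAbove k j with h | ⟨j, h⟩
      · subst h
        apply Finset.sum_eq_zero
        intro l _
        rw [ins_col, mul_zero]
      · subst h
        rcases Fin.eq_self_or_eq_succAbove k i with h | ⟨i, h⟩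
        · subst h
          simp only [ins_ks, ins_ss]
          have h5 := congrFun h3 j.rev
          rw [Matrix.mulVec, dotProduct] at h5
          rw [Pi.zero_apply] at h5
          rw [Matrix.zero_apply, ← h5, ← Equiv.sum_comp Fin.revPerm]
          apply Finset.sum_congr rfl
          intro l _
          simp [mul_comm]
        · subst h
          simp only [ins_ss]
          have h5 := congrFun (congrFun h2 j.rev) i.rev
          rw [Matrix.mul_apply, Matrix.zero_apply] at h5
          rw [Matrix.zero_apply, ← h5, ← Equiv.sum_comp Fin.revPerm]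
          apply Finset.sum_congr rfl
          intro l _
          simp [mul_comm]
  · intro X hX
    obtain ⟨⟨h1, h2⟩, h3⟩ := mem_colz.1 hX
    refine mem_pairs.2 ⟨⟨?_, ?_⟩, ?_, ?_⟩
    · intro i j hij
      change X (k.succAbove j.rev) (k.succAbove i.rev) = 0
      apply h1
      rw [(Fin.strictMono_succAbove k).le_iff_le, Fin.rev_le_rev]
      exact hij
    · ext i j
      have h5 := congrFun (congrFun h2 (k.succAbove j.rev)) (k.succAbove i.rev)
      rw [Matrix.mul_apply, Fin.sum_univ_succAbove _ k, h3, zero_mul, zero_add,
        Matrix.zero_apply] at h5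
      rw [Matrix.mul_apply, Matrix.zero_apply, ← h5, ← Equiv.sum_comp Fin.revPerm]
      apply Finset.sum_congr rfl
      intro l _
      simp [mul_comm]
    · ext i
      have h5 := congrFun (congrFun h2 k) (k.succAbove i.rev)
      rw [Matrix.mul_apply, Fin.sum_univ_succAbove _ k, h3, zero_mul, zero_add,
        Matrix.zero_apply] at h5
      rw [Matrix.mulVec, dotProduct, Pi.zero_apply, ← h5, ← Equiv.sum_comp Fin.revPerm]
      apply Finset.sum_congr rfl
      intro l _
      simp [mul_comm]
    · intro i hi
      change X k (k.succAbove i.rev) = 0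
      apply h1
      have h6 : (i.rev : ℕ) < k := by
        rw [Fin.val_rev]
        have := i.2
        have := k.2
        omega
      rw [Fin.succAbove_of_castSucc_lt _ _ (by rw [Fin.lt_def, Fin.val_castSucc]; omega),
        Fin.le_def, Fin.val_castSucc]
      omega
  · rintro ⟨Z, v⟩ _
    refine Prod.ext ?_ ?_
    · ext i j; simp
    · ext i; simp
  · intro X hX
    obtain ⟨⟨h1, h2⟩, h3⟩ := mem_colz.1 hX
    change ins k (Matrix.of fun i j => X (k.succAbove j.rev) (k.succAbove i.rev))
      (fun i => X k (k.succAbove i.rev)) = X
    ext i j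
    rcases Fin.eq_self_or_eq_succAbove k j with h | ⟨j, h⟩
    · subst h
      rw [ins_col, h3]
    · subst h
      rcases Fin.eq_self_or_eq_succAbove k i with h | ⟨i, h⟩
      · subst h
        rw [ins_ks, Fin.rev_rev]
      · subst h
        rw [ins_ss, Matrix.of_apply, Fin.rev_rev, Fin.rev_rev]

end Pool.Agent.Y106.QT
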