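import Mathlib

/-!
# Counting strictly upper triangular matrices with square zero
-/

open Finset Matrix
open scoped Classical

set_option linter.unusedSectionVars false

namespace Pool.Agent.Y106.QT

variable {F : Type*} [Field F]

/-- The matrix `X` is strictly upper triangular. -/
def IsStrictUpper {m : ℕ} (X : Matrix (Fin m) (Fin m) F) : Prop := ∀ i j, j ≤ i → X i j = 0

/-- The matrix `X` is upper triangular. -/
def IsUpper {m : ℕ} (X : Matrix (Fin m) (Fin m) F) : Prop := ∀ i j, j < i → X i j = 0

lemma IsStrictUpper.mul_upper {m : ℕ} {X Y : Matrix (Fin m) (Fin m) F} (hX : IsStrictUpper X)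
    (hY : IsUpper Y) : IsStrictUpper (X * Y) := by
  intro i j hij
  rw [Matrix.mul_apply]
  apply Finset.sum_eq_zero
  intro l _
  by_cases h : l ≤ i
  · rw [hX i l h, zero_mul]
  · rw [hY l j (lt_of_le_of_lt hij (not_le.1 h)), mul_zero]

lemma IsStrictUpper.upper_mul {m : ℕ} {X Y : Matrix (Fin m) (Fin m) F} (hX : IsStrictUpper X)
    (hY : IsUpper Y) : IsStrictUpper (Y * X) := by
  intro i j hij
  rw [Matrix.mul_apply]
  apply Finset.sum_eq_zero
  intro l _
  by_cases h : j ≤ l
  · rw [hX l j h, mul_zero]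
  · rw [hY i l (lt_of_lt_of_le (not_le.1 h) hij), zero_mul]

variable [Fintype F]

/-- The pairs `(X, v)` with `X` strictly upper triangular of square zero and `v` in the kernel of
`X`, supported on the first `k` coordinates. -/
noncomputable def pairs (F : Type*) [Field F] [Fintype F] (m k : ℕ) :
    Finset (Matrix (Fin m) (Fin m) F × (Fin m → F)) :=
  univ.filter fun p => (IsStrictUpper p.1 ∧ p.1 * p.1 = 0) ∧ p.1.mulVec p.2 = 0 ∧
    ∀ i : Fin m, k ≤ (i : ℕ) → p.2 i = 0

/-- The strictly upper triangular matrices of square zero. -/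
noncomputable def mats (F : Type*) [Field F] [Fintype F] (m : ℕ) :
    Finset (Matrix (Fin m) (Fin m) F) :=
  univ.filter fun X => IsStrictUpper X ∧ X * X = 0

/-- The strictly upper triangular matrices of square zero with the column `k` zero. -/
noncomputable def colz (F : Type*) [Field F] [Fintype F] (m : ℕ) (k : Fin m) :
    Finset (Matrix (Fin m) (Fin m) F) :=
  univ.filter fun X => (IsStrictUpper X ∧ X * X = 0) ∧ ∀ i, X i k = 0

lemma mem_pairs {m k : ℕ} {p : Matrix (Fin m) (Fin m) F × (Fin m → F)} :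
    p ∈ pairs F m k ↔ (IsStrictUpper p.1 ∧ p.1 * p.1 = 0) ∧ p.1.mulVec p.2 = 0 ∧
      ∀ i : Fin m, k ≤ (i : ℕ) → p.2 i = 0 := by
  rw [pairs, mem_filter]
  simp

lemma mem_mats {m : ℕ} {X : Matrix (Fin m) (Fin m) F} :
    X ∈ mats F m ↔ IsStrictUpper X ∧ X * X = 0 := by
  rw [mats, mem_filter]
  simp

lemma mem_colz {m : ℕ} {k : Fin m} {X : Matrix (Fin m) (Fin m) F} :
    X ∈ colz F m k ↔ (IsStrictUpper X ∧ X * X = 0) ∧ ∀ i, X i k = 0 := by
  rw [colz, mem_filter]
  simp

/-- The case `k = 0`. -/
lemma card_pairs_zero (m : ℕ) : (pairs F m 0).card = (mats F m).card := by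
  refine Finset.card_nbij' (fun p => p.1) (fun X => (X, 0)) ?_ ?_ ?_ ?_
  · intro p hp
    exact mem_mats.2 (mem_pairs.1 hp).1
  · intro X hX
    refine mem_pairs.2 ⟨mem_mats.1 hX, ?_, fun i _ => rfl⟩
    exact Matrix.mulVec_zero X
  · rintro ⟨X, v⟩ hp
    have h := (mem_pairs.1 hp).2.2
    have : v = 0 := funext fun i => h i (Nat.zero_le _)
    rw [this]
  · intro X _
    rfl

/-- Bordering a matrix by a column on the right. -/
def bord {m : ℕ} (X : Matrix (Fin m) (Fin m) F) (v : Fin m → F) :
    Matrix (Fin (m + 1)) (Fin (m + 1)) F :=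
  Matrix.of (Fin.snoc (α := fun _ => Fin (m + 1) → F)
    (fun i => Fin.snoc (α := fun _ => F) (X i) (v i)) 0)

section Bord

variable {m : ℕ} (X : Matrix (Fin m) (Fin m) F) (v : Fin m → F)

@[simp] lemma bord_cc (i j : Fin m) : bord X v i.castSucc j.castSucc = X i j := by
  simp [bord]

@[simp] lemma bord_cl (i : Fin m) : bord X v i.castSucc (Fin.last m) = v i := by
  simp [bord]

@[simp] lemma bord_l (j : Fin (m + 1)) : bord X v (Fin.last m) j = 0 := by
  simp [bord]

lemma bord_strict (hX : IsStrictUpper X) : IsStrictUpper (bord X v) := by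
  intro i j hij
  induction i using Fin.lastCases with
  | last => simp
  | cast i =>
    induction j using Fin.lastCases with
    | last => exact absurd hij (not_le.2 (Fin.castSucc_lt_last i))
    | cast j => rw [bord_cc]; exact hX i j (by simpa using hij)

lemma bord_mul (hX : X * X = 0) (hv : X.mulVec v = 0) : bord X v * bord X v = 0 := by
  ext i j
  rw [Matrix.mul_apply, Fin.sum_univ_castSucc]
  induction i using Fin.lastCases with
  | last => simp
  | cast i =>
    rw [bord_l, mul_zero, add_zero]
    induction j using Fin.lastCases with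
    | last =>
      simp only [bord_cc, bord_cl]
      have := congrFun hv i
      rw [Matrix.mulVec, dotProduct] at this
      simpa using this
    | cast j =>
      simp only [bord_cc]
      have := congrFun (congrFun hX i) j
      rw [Matrix.mul_apply] at this
      simpa using this

end Bord

lemma bord_surj {m : ℕ} {Y : Matrix (Fin (m + 1)) (Fin (m + 1)) F} (hY : IsStrictUpper Y)
    (h2 : Y * Y = 0) :
    let X : Matrix (Fin m) (Fin m) F := Y.submatrix Fin.castSucc Fin.castSucc
    let v : Fin m → F := fun i => Y i.castSucc (Fin.last m)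
    bord X v = Y ∧ IsStrictUpper X ∧ X * X = 0 ∧ X.mulVec v = 0 := by
  intro X v
  have hl : ∀ j, Y (Fin.last m) j = 0 := fun j => hY _ _ (Fin.le_last j)
  refine ⟨?_, ?_, ?_, ?_⟩
  · ext i j
    induction i using Fin.lastCases with
    | last => rw [bord_l, hl]
    | cast i =>
      induction j using Fin.lastCases with
      | last => rw [bord_cl]
      | cast j => rw [bord_cc]; rfl
  · intro i j hij
    exact hY _ _ (by simpa using hij)
  · ext i j
    have := congrFun (congrFun h2 i.castSucc) j.castSucc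
    rw [Matrix.mul_apply, Fin.sum_univ_castSucc, hl, mul_zero, add_zero] at this
    rw [Matrix.mul_apply]
    exact this
  · ext i
    have := congrFun (congrFun h2 i.castSucc) (Fin.last m)
    rw [Matrix.mul_apply, Fin.sum_univ_castSucc, hl, mul_zero, add_zero] at this
    rw [Matrix.mulVec, dotProduct]
    exact this

/-- The case `k = m`. -/
lemma card_pairs_top (m : ℕ) : (pairs F m m).card = (mats F (m + 1)).card := by
  refine Finset.card_nbij' (fun p => bord p.1 p.2)
    (fun Y => (Y.submatrix Fin.castSucc Fin.castSucc, fun i => Y i.castSucc (Fin.last m)))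
    ?_ ?_ ?_ ?_
  · intro p hp
    obtain ⟨⟨h1, h2⟩, h3, -⟩ := mem_pairs.1 hp
    exact mem_mats.2 ⟨bord_strict _ _ h1, bord_mul _ _ h2 h3⟩
  · intro Y hY
    obtain ⟨h1, h2⟩ := mem_mats.1 hY
    obtain ⟨-, h4, h5, h6⟩ := bord_surj h1 h2
    exact mem_pairs.2 ⟨⟨h4, h5⟩, h6, fun i hi => absurd i.2 (not_lt.2 hi)⟩
  · rintro ⟨X, v⟩ _
    refine Prod.ext ?_ ?_
    · ext i j; simp
    · ext i; simp
  · intro Y hY
    obtain ⟨h1, h2⟩ := mem_mats.1 hY
    exact (bord_surj h1 h2).1

end Pool.Agent.Y106.QT
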