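import Pool.Agent.Y106.QT.RankRec

/-!
# The q-triangle counts triangular matrices with square zero
-/

open Finset Matrix LaurentPolynomial
open scoped Classical

set_option linter.unusedSectionVars false

namespace Pool.Agent.Y106.QT

/-- The table of the polynomials `A_n^r` (as Laurent polynomials in `q = T 1`). -/
structure IsRankTable (A : ℕ → ℤ → ℤ[T;T⁻¹]) : Prop where
  zero_zero : A 0 0 = 1
  vanish : ∀ (n : ℕ) (r : ℤ), (r < 0 ∨ (n : ℤ) < r) → A n r = 0
  step : ∀ (n : ℕ) (r : ℤ),
    A (n + 1) (r + 1) = T (r + 1) * A n (r + 1) + (T (n - r) - T r) * A n r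

/-- The `q`-analogue of the boustrophedon triangle: Laurent polynomials `b_{k,l}` in
`q = T 1`. -/
structure IsQTriangle (b : ℕ → ℕ → ℤ[T;T⁻¹]) : Prop where
  zero_zero : b 0 0 = 1
  zero_succ : ∀ l : ℕ, b 0 (l + 1) = T (l + 1) * b l 0
  succ : ∀ k l : ℕ, b (k + 1) l = T (-1) * b k (l + 1) + (T (l + 1) - T l) * b l k

/-! ### Existence and uniqueness of the triangle -/

/-- The row `k + l = n + 1` from the row `k + l = n`. -/
noncomputable def nextRow (n : ℕ) (prev : ℕ → ℤ[T;T⁻¹]) : ℕ → ℤ[T;T⁻¹]
  | 0 => T (n + 1) * prev n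
  | k + 1 => T (-1) * nextRow n prev k +
      (T (((n - k : ℕ) : ℤ) + 1) - T ((n - k : ℕ) : ℤ)) * prev (n - k)

/-- The rows of the triangle. -/
noncomputable def row : ℕ → ℕ → ℤ[T;T⁻¹]
  | 0 => fun _ => 1
  | n + 1 => nextRow n (row n)

/-- The triangle. -/
noncomputable def tri (k l : ℕ) : ℤ[T;T⁻¹] := row (k + l) k

lemma isQTriangle_tri : IsQTriangle tri where
  zero_zero := rfl
  zero_succ l := by
    have : (0 : ℕ) + (l + 1) = l + 1 := by omega
    rw [tri, this, row, nextRow, tri, add_zero]
  succ k l := by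
    have h : k + 1 + l = (k + l) + 1 := by omega
    have h2 : k + (l + 1) = (k + l) + 1 := by omega
    rw [tri, h, row, nextRow, tri, h2, row, tri, Nat.add_sub_cancel_left, Nat.add_comm l k]

lemma IsQTriangle.unique {b b' : ℕ → ℕ → ℤ[T;T⁻¹]} (hb : IsQTriangle b) (hb' : IsQTriangle b') :
    b = b' := by
  have key : ∀ n k l, k + l = n → b k l = b' k l := by
    intro n
    induction n with
    | zero =>
      intro k l h
      obtain ⟨rfl, rfl⟩ : k = 0 ∧ l = 0 := by omega
      rw [hb.zero_zero, hb'.zero_zero]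
    | succ n ih =>
      intro k
      induction k with
      | zero =>
        intro l h
        obtain rfl : l = n + 1 := by omega
        rw [hb.zero_succ, hb'.zero_succ, ih n 0 (by omega)]
      | succ k ihk =>
        intro l h
        rw [hb.succ, hb'.succ, ihk (l + 1) (by omega), ih l k (by omega)]
  funext k l
  exact key _ k l rfl

/-! ### Existence and uniqueness of the rank table -/

/-- The rank table. -/
noncomputable def rankTable : ℕ → ℤ → ℤ[T;T⁻¹]
  | 0 => fun r => if r = 0 then 1 else 0
  | n + 1 => fun r => T r * rankTable n r + (T (n + 1 - r) - T (r - 1)) * rankTable n (r - 1)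

lemma rankTable_zero (r : ℤ) : rankTable 0 r = if r = 0 then 1 else 0 := rfl

lemma rankTable_succ (n : ℕ) (r : ℤ) : rankTable (n + 1) r =
    T r * rankTable n r + (T (n + 1 - r) - T (r - 1)) * rankTable n (r - 1) := rfl

lemma rankTable_vanish (n : ℕ) : ∀ r : ℤ, (r < 0 ∨ (n : ℤ) < r) → rankTable n r = 0 := by
  induction n with
  | zero =>
    intro r hr
    have hr0 : r ≠ 0 := by push_cast at hr; omega
    rw [rankTable_zero, if_neg hr0]
  | succ n ih =>
    intro r hr
    rw [rankTable_succ, ih r (by push_cast at hr; omega), mul_zero, zero_add]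
    by_cases h : r - 1 = n
    · have hn : rankTable n (r - 1) = 0 ∨ n = 0 := by
        by_cases hn : n = 0
        · exact Or.inr hn
        · left
          push_cast at hr
          omega
      rcases hn with hn | hn
      · rw [hn, mul_zero]
      · push_cast at hr
        omega
    · rw [ih (r - 1) (by push_cast at hr; omega), mul_zero]

lemma isRankTable_rankTable : IsRankTable rankTable where
  zero_zero := by rw [rankTable_zero, if_pos rfl]
  vanish := rankTable_vanish
  step n r := by
    rw [rankTable_succ]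
    have h1 : (n : ℤ) + 1 - (r + 1) = n - r := by ring
    have h2 : r + 1 - 1 = r := by ring
    rw [h1, h2]

lemma IsRankTable.unique {A A' : ℕ → ℤ → ℤ[T;T⁻¹]} (h : IsRankTable A) (h' : IsRankTable A') :
    A = A' := by
  funext n
  induction n with
  | zero =>
    funext r
    by_cases hr : r = 0
    · rw [hr, h.zero_zero, h'.zero_zero]
    · rw [h.vanish 0 r (by push_cast; omega), h'.vanish 0 r (by push_cast; omega)]
  | succ n ih =>
    funext r
    have h1 := h.step n (r - 1)
    have h2 := h'.step n (r - 1)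
    rw [sub_add_cancel] at h1 h2
    rw [h1, h2, ih]

/-! ### Evaluation at the number of elements of a finite field -/

/-- Evaluation of an integral Laurent polynomial at a nonzero rational number. -/
noncomputable def valueAt (u : ℚˣ) : ℤ[T;T⁻¹] →+* ℚ := LaurentPolynomial.eval₂ (Int.castRingHom ℚ) u

lemma valueAt_T (u : ℚˣ) (n : ℤ) : valueAt u (T n) = (u : ℚ) ^ n := by
  rw [valueAt, eval₂_T, Units.val_zpow_eq_zpow_val]

section Eval

variable {F : Type*} [Field F] [Fintype F]

lemma card_mats_zero : (mats F 0).card = 1 := by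
  rw [card_mats_eq_sum]
  simp [card_ranks_zero]

/-- The entries of the triangle count pairs. -/
lemma IsQTriangle.value {b : ℕ → ℕ → ℤ[T;T⁻¹]} (hb : IsQTriangle b) (u : ℚˣ)
    (hu : (u : ℚ) = Fintype.card F) :
    ∀ n k l, k + l = n → valueAt u (b k l) =
      (Fintype.card F : ℚ) ^ l * ((pairs F n k).card : ℚ) := by
  intro n
  have hq : (Fintype.card F : ℚ) ≠ 0 := by rw [← hu]; exact u.ne_zero
  induction n with
  | zero =>
    intro k l h
    obtain ⟨rfl, rfl⟩ : k = 0 ∧ l = 0 := by omega
    rw [hb.zero_zero, map_one, card_pairs_zero, card_mats_zero]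
    simp
  | succ n ih =>
    intro k
    induction k with
    | zero =>
      intro l h
      obtain rfl : l = n + 1 := by omega
      rw [hb.zero_succ, map_mul, ih n 0 (by omega), valueAt_T, hu, card_pairs_zero,
        card_pairs_top, pow_zero, one_mul]
      norm_cast
    | succ k ihk =>
      intro l h
      have hkn : k < n + 1 := by omega
      have h1 := card_pairs_succ (F := F) (n + 1) ⟨k, hkn⟩
      rw [card_colz] at h1
      simp only at h1
      have hl : n - k = l := by omega
      rw [hl] at h1
      have hcard : 1 ≤ Fintype.card F := Fintype.card_pos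
      rw [hb.succ, map_add, map_mul, map_mul, map_sub, ihk (l + 1) (by omega),
        ih l k (by omega), valueAt_T, valueAt_T, valueAt_T, hu, h1]
      push_cast [Nat.cast_sub hcard]
      have e1 : (Fintype.card F : ℚ) ^ ((l : ℤ) + 1) = (Fintype.card F : ℚ) ^ (l + 1) := by
        norm_cast
      have e2 : (Fintype.card F : ℚ) ^ (l : ℤ) = (Fintype.card F : ℚ) ^ l := by
        norm_cast
      rw [e1, e2, _root_.zpow_neg_one, pow_succ]
      field_simp

/-- The rank table counts matrices of given rank. -/
lemma IsRankTable.value {A : ℕ → ℤ → ℤ[T;T⁻¹]} (hA : IsRankTable A) (u : ℚˣ)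
    (hu : (u : ℚ) = Fintype.card F) :
    ∀ n r : ℕ, valueAt u (A n r) = ((ranks F n r).card : ℚ) := by
  intro n
  induction n with
  | zero =>
    intro r
    by_cases hr : r = 0
    · subst hr
      rw [Nat.cast_zero, hA.zero_zero, map_one, card_ranks_zero, Nat.cast_one]
    · rw [hA.vanish 0 r (by push_cast; omega), map_zero, card_ranks_of_lt (by omega),
        Nat.cast_zero]
  | succ n ih =>
    intro r
    by_cases hr : n + 1 < r
    · rw [hA.vanish (n + 1) r (by push_cast; omega), map_zero, card_ranks_of_lt hr,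
        Nat.cast_zero]
    · cases r with
      | zero =>
        have h1 := hA.step n (-1)
        rw [neg_add_cancel, hA.vanish n (-1) (by omega), mul_zero, add_zero, T_zero,
          one_mul] at h1
        have h2 := card_ranks_succ_zero (F := F) n
        have h3 := ih 0
        rw [Nat.cast_zero] at h3 ⊢
        rw [h1, h3]
        exact_mod_cast h2.symm
      | succ r =>
        have h1 := hA.step n r
        have h2 := card_ranks_succ_succ (F := F) n r (by omega)
        have h3 := ih (r + 1)
        have h4 := ih r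
        have h5 : valueAt u (A (n + 1) ((r + 1 : ℕ) : ℤ)) =
            (Fintype.card F : ℚ) ^ (r + 1) * ((ranks F n (r + 1)).card : ℚ) +
              ((Fintype.card F : ℚ) ^ (n - r) - (Fintype.card F : ℚ) ^ r) *
                ((ranks F n r).card : ℚ) := by
          push_cast
          push_cast at h3
          rw [h1, map_add, map_mul, map_mul, map_sub, h3, h4, valueAt_T, valueAt_T, valueAt_T, hu]
          have e1 : (Fintype.card F : ℚ) ^ ((r : ℤ) + 1) = (Fintype.card F : ℚ) ^ (r + 1) := by
            norm_cast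
          have e2 : (Fintype.card F : ℚ) ^ (r : ℤ) = (Fintype.card F : ℚ) ^ r := by
            norm_cast
          have e3 : (Fintype.card F : ℚ) ^ ((n : ℤ) - r) = (Fintype.card F : ℚ) ^ (n - r) := by
            rw [← Nat.cast_sub (by omega : r ≤ n)]
            norm_cast
          rw [e1, e2, e3]
        rw [h5]
        have h6 : (((ranks F (n + 1) (r + 1)).card : ℤ) : ℚ) = _ := congrArg (Int.cast (R := ℚ)) h2
        push_cast at h6
        rw [h6]

end Eval

/-! ### The identity -/

/-- Two Laurent polynomials which agree at all prime numbers are equal. -/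
lemma eq_of_primes {f g : ℤ[T;T⁻¹]}
    (h : ∀ p : ℕ, p.Prime → ∀ u : ℚˣ, (u : ℚ) = p → valueAt u f = valueAt u g) : f = g := by
  rw [← sub_eq_zero]
  obtain ⟨n, P, hP⟩ := exists_T_pow (f - g)
  have h1 : P.map (Int.castRingHom ℚ) = 0 := by
    refine Polynomial.eq_zero_of_infinite_isRoot _ ?_
    refine Set.Infinite.mono ?_ (Nat.infinite_setOfPred_prime.image
      (Nat.cast_injective (R := ℚ)).injOn)
    rintro _ ⟨p, hp, rfl⟩
    have hp0 : (p : ℚ) ≠ 0 := Nat.cast_ne_zero.2 (Nat.Prime.ne_zero hp)
    have h2 := h p hp (Units.mk0 (p : ℚ) hp0) rfl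
    have h3 : valueAt (Units.mk0 (p : ℚ) hp0) (Polynomial.toLaurent P) = 0 := by
      rw [hP, map_mul, map_sub, h2, sub_self, zero_mul]
    rw [valueAt, eval₂_toLaurent] at h3
    show Polynomial.IsRoot _ _
    rw [Polynomial.IsRoot.def, Polynomial.eval_map]
    exact h3
  have h2 : P = 0 := by
    rw [Polynomial.map_eq_zero_iff (RingHom.injective_int _)] at h1
    exact h1
  rw [h2, map_zero] at hP
  exact ((isUnit_T (R := ℤ) (n : ℤ)).mul_left_eq_zero).1 hP.symm

/-- **The theorem.** -/
theorem main {A : ℕ → ℤ → ℤ[T;T⁻¹]} {b : ℕ → ℕ → ℤ[T;T⁻¹]} (hA : IsRankTable A)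
    (hb : IsQTriangle b) (n : ℕ) (hn : 1 ≤ n) :
    b (n - 1) 0 = ∑ r ∈ range (n + 1), A n r := by
  apply eq_of_primes
  intro p hp u hu
  have : Fact p.Prime := ⟨hp⟩
  obtain ⟨m, rfl⟩ : ∃ m, n = m + 1 := ⟨n - 1, by omega⟩
  have hu' : (u : ℚ) = Fintype.card (ZMod p) := by rw [ZMod.card, hu]
  rw [Nat.add_sub_cancel, hb.value (F := ZMod p) u hu' m m 0 (by omega), pow_zero, one_mul,
    card_pairs_top, card_mats_eq_sum, map_sum]
  push_cast
  refine Finset.sum_congr rfl fun r _ => ?_
  rw [hA.value (F := ZMod p) u hu']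

end Pool.Agent.Y106.QT
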