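import Pool.Agent.Y106.QT.Step

/-!
# The recursion for the number of matrices of a given rank
-/

open Finset Matrix
open scoped Classical

set_option linter.unusedSectionVars false

namespace Pool.Agent.Y106.QT

variable {F : Type*} [Field F] [Fintype F]

/-- The embedding which adds the coordinate zero. -/
def emb (F : Type*) [Field F] (m : ℕ) : (Fin m → F) →ₗ[F] (Fin (m + 1) → F) where
  toFun u := Fin.snoc (α := fun _ => F) u 0
  map_add' u v := by
    funext i
    induction i using Fin.lastCases with
    | last => simp
    | cast i => simp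
  map_smul' c u := by
    funext i
    induction i using Fin.lastCases with
    | last => simp
    | cast i => simp

lemma emb_inj (m : ℕ) : Function.Injective (emb F m) := by
  intro u v h
  funext i
  have := congrFun h i.castSucc
  simpa [emb] using this

lemma bord_mulVec {m : ℕ} (X : Matrix (Fin m) (Fin m) F) (v : Fin m → F)
    (w : Fin (m + 1) → F) :
    (bord X v).mulVec w = emb F m (X.mulVec (fun i => w i.castSucc) + w (Fin.last m) • v) := by
  funext i
  rw [Matrix.mulVec, dotProduct, Fin.sum_univ_castSucc]
  induction i using Fin.lastCases with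
  | last => simp [emb]
  | cast i => simp [emb, Matrix.mulVec, dotProduct, mul_comm]

lemma range_bord {m : ℕ} (X : Matrix (Fin m) (Fin m) F) (v : Fin m → F) :
    LinearMap.range (bord X v).mulVecLin =
      (LinearMap.range X.mulVecLin ⊔ Submodule.span F {v}).map (emb F m) := by
  apply le_antisymm
  · rintro _ ⟨w, rfl⟩
    rw [Matrix.mulVecLin_apply, bord_mulVec]
    refine Submodule.mem_map_of_mem (Submodule.add_mem_sup ⟨_, rfl⟩ ?_)
    exact Submodule.smul_mem _ _ (Submodule.mem_span_singleton_self v)
  · rintro _ ⟨u, hu, rfl⟩
    obtain ⟨_, ⟨a, rfl⟩, b, hb, rfl⟩ := Submodule.mem_sup.1 hu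
    obtain ⟨c, rfl⟩ := Submodule.mem_span_singleton.1 hb
    refine ⟨Fin.snoc (α := fun _ => F) a c, ?_⟩
    rw [Matrix.mulVecLin_apply, bord_mulVec]
    simp

lemma rank_bord {m : ℕ} (X : Matrix (Fin m) (Fin m) F) (v : Fin m → F) :
    (bord X v).rank = if v ∈ LinearMap.range X.mulVecLin then X.rank else X.rank + 1 := by
  rw [Matrix.rank, Matrix.rank, range_bord,
    (Submodule.equivMapOfInjective _ (emb_inj m) _).symm.finrank_eq]
  split_ifs with h
  · rw [sup_eq_left.2 (by rw [Submodule.span_singleton_le_iff_mem]; exact h)]
  · have hv : v ≠ 0 := fun h0 => h (by rw [h0]; exact Submodule.zero_mem _)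
    have hinf : LinearMap.range X.mulVecLin ⊓ Submodule.span F {v} = ⊥ := by
      rw [eq_bot_iff]
      rintro x ⟨hx, hx'⟩
      obtain ⟨c, rfl⟩ := Submodule.mem_span_singleton.1 hx'
      by_cases hc : c = 0
      · rw [hc, zero_smul]; exact Submodule.zero_mem _
      · exact absurd (by
          have := Submodule.smul_mem _ c⁻¹ hx
          rwa [smul_smul, inv_mul_cancel₀ hc, one_smul] at this) h
    have h1 := Submodule.finrank_sup_add_finrank_inf_eq (LinearMap.range X.mulVecLin)
      (Submodule.span F {v})
    rw [hinf, finrank_bot, add_zero, finrank_span_singleton hv] at h1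
    exact h1

/-- The matrices of rank `r`. -/
noncomputable def ranks (F : Type*) [Field F] [Fintype F] (m r : ℕ) :
    Finset (Matrix (Fin m) (Fin m) F) :=
  (mats F m).filter fun X => X.rank = r

lemma card_range {m : ℕ} (X : Matrix (Fin m) (Fin m) F) :
    (univ.filter fun v => v ∈ LinearMap.range X.mulVecLin).card =
      Fintype.card F ^ X.rank := by
  rw [Matrix.rank, ← Module.card_eq_pow_finrank (K := F)
    (V := LinearMap.range X.mulVecLin), Fintype.card_subtype]

lemma card_ker {m : ℕ} (X : Matrix (Fin m) (Fin m) F) :
    (univ.filter fun v => X.mulVec v = 0).card = Fintype.card F ^ (m - X.rank) := by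
  have h1 : m - X.rank = Module.finrank F (LinearMap.ker X.mulVecLin) := by
    have := X.mulVecLin.finrank_range_add_finrank_ker
    rw [Module.finrank_fin_fun] at this
    rw [Matrix.rank]
    omega
  rw [h1, ← Module.card_eq_pow_finrank (K := F)
    (V := LinearMap.ker X.mulVecLin), Fintype.card_subtype]
  congr 1
  ext v
  simp [LinearMap.mem_ker]

/-- The number of the columns which lead to a given rank. -/
lemma card_cols {m : ℕ} {X : Matrix (Fin m) (Fin m) F} (hX : X * X = 0) (s : ℕ) :
    ((univ.filter fun v => X.mulVec v = 0 ∧ (bord X v).rank = s).card : ℤ) =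
      (if X.rank = s then (Fintype.card F : ℤ) ^ s else 0) +
      (if X.rank + 1 = s then (Fintype.card F : ℤ) ^ (m - X.rank) -
        (Fintype.card F : ℤ) ^ X.rank else 0) := by
  have hsub : (univ.filter fun v => v ∈ LinearMap.range X.mulVecLin) ⊆
      (univ.filter fun v => X.mulVec v = 0) := by
    intro v hv
    obtain ⟨u, rfl⟩ := (mem_filter.1 hv).2
    refine mem_filter.2 ⟨mem_univ _, ?_⟩
    rw [Matrix.mulVecLin_apply, Matrix.mulVec_mulVec, hX, Matrix.zero_mulVec]
  by_cases h1 : X.rank = s
  · rw [if_pos h1, if_neg (by omega), add_zero]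
    have : (univ.filter fun v => X.mulVec v = 0 ∧ (bord X v).rank = s) =
        (univ.filter fun v => v ∈ LinearMap.range X.mulVecLin) := by
      ext v
      simp only [mem_filter, mem_univ, true_and]
      constructor
      · rintro ⟨-, h2⟩
        by_contra h3
        rw [rank_bord, if_neg h3] at h2
        omega
      · intro h2
        exact ⟨by simpa using hsub (mem_filter.2 ⟨mem_univ _, h2⟩), by
          rw [rank_bord, if_pos h2, h1]⟩
    rw [this, card_range, h1]
    push_cast
    rfl
  · rw [if_neg h1, zero_add]
    by_cases h2 : X.rank + 1 = s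
    · rw [if_pos h2]
      have : (univ.filter fun v => X.mulVec v = 0 ∧ (bord X v).rank = s) =
          (univ.filter fun v => X.mulVec v = 0) \
            (univ.filter fun v => v ∈ LinearMap.range X.mulVecLin) := by
        ext v
        simp only [mem_filter, mem_univ, true_and, mem_sdiff]
        constructor
        · rintro ⟨h3, h4⟩
          refine ⟨h3, fun h5 => ?_⟩
          rw [rank_bord, if_pos h5] at h4
          exact h1 h4
        · rintro ⟨h3, h4⟩
          exact ⟨h3, by rw [rank_bord, if_neg h4, h2]⟩
      rw [this, Finset.card_sdiff_of_subset hsub, card_range, card_ker]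
      have h3 := Finset.card_le_card hsub
      rw [card_range, card_ker] at h3
      rw [Nat.cast_sub h3]
      push_cast
      rfl
    · rw [if_neg h2, Nat.cast_eq_zero, Finset.card_eq_zero, Finset.filter_eq_empty_iff]
      rintro v - ⟨-, h3⟩
      rw [rank_bord] at h3
      split_ifs at h3 <;> omega

end Pool.Agent.Y106.QT
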