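import Pool.Agent.Y106.QT.Rank

/-!
# The rank recursion
-/

open Finset Matrix
open scoped Classical

set_option linter.unusedSectionVars false

namespace Pool.Agent.Y106.QT

variable {F : Type*} [Field F] [Fintype F]

lemma mem_ranks {m r : ℕ} {X : Matrix (Fin m) (Fin m) F} :
    X ∈ ranks F m r ↔ (IsStrictUpper X ∧ X * X = 0) ∧ X.rank = r := by
  rw [ranks, mem_filter, mem_mats]

/-- The matrices of rank `s` in size `m + 1`, as a sigma type. -/
lemma card_ranks_succ_sum (m s : ℕ) :
    (ranks F (m + 1) s).card = ∑ X ∈ mats F m,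
      (univ.filter fun v => X.mulVec v = 0 ∧ (bord X v).rank = s).card := by
  rw [← Finset.card_sigma]
  symm
  refine Finset.card_nbij' (fun p => bord p.1 p.2)
    (fun Y => ⟨Y.submatrix Fin.castSucc Fin.castSucc, fun i => Y i.castSucc (Fin.last m)⟩)
    ?_ ?_ ?_ ?_
  · intro p hp
    obtain ⟨h1, h2⟩ := Finset.mem_sigma.1 hp
    obtain ⟨h3, h4⟩ := mem_mats.1 h1
    obtain ⟨-, h5, h6⟩ := mem_filter.1 h2
    exact mem_ranks.2 ⟨⟨bord_strict _ _ h3, bord_mul _ _ h4 h5⟩, h6⟩
  · intro Y hY
    obtain ⟨⟨h1, h2⟩, h3⟩ := mem_ranks.1 hY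
    obtain ⟨h0, h4, h5, h6⟩ := bord_surj h1 h2
    refine Finset.mem_sigma.2 ⟨mem_mats.2 ⟨h4, h5⟩, mem_filter.2 ⟨mem_univ _, h6, ?_⟩⟩
    show (bord _ _).rank = s
    rw [h0, h3]
  · rintro ⟨X, v⟩ _
    refine Sigma.ext ?_ (heq_of_eq ?_)
    · ext i j; simp
    · ext i; simp
  · intro Y hY
    obtain ⟨⟨h1, h2⟩, h3⟩ := mem_ranks.1 hY
    exact (bord_surj h1 h2).1

lemma sum_ite_ranks (m s : ℕ) (c : ℤ) :
    (∑ X ∈ mats F m, if X.rank = s then c else 0) = c * (ranks F m s).card := by
  rw [← Finset.sum_filter, Finset.sum_const, ranks, nsmul_eq_mul, mul_comm]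

/-- The recursion, rank zero. -/
lemma card_ranks_succ_zero (m : ℕ) :
    ((ranks F (m + 1) 0).card : ℤ) = (ranks F m 0).card := by
  rw [card_ranks_succ_sum]
  push_cast
  rw [Finset.sum_congr rfl fun X hX => card_cols (mem_mats.1 hX).2 0]
  rw [Finset.sum_add_distrib, sum_ite_ranks]
  rw [Finset.sum_eq_zero (s := mats F m) fun X _ => if_neg (Nat.succ_ne_zero _)]
  simp

/-- The recursion, positive rank. -/
lemma card_ranks_succ_succ (m r : ℕ) (_ : r ≤ m) :
    ((ranks F (m + 1) (r + 1)).card : ℤ) =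
      (Fintype.card F : ℤ) ^ (r + 1) * (ranks F m (r + 1)).card +
        ((Fintype.card F : ℤ) ^ (m - r) - (Fintype.card F : ℤ) ^ r) * (ranks F m r).card := by
  rw [card_ranks_succ_sum]
  push_cast
  rw [Finset.sum_congr rfl fun X hX => card_cols (mem_mats.1 hX).2 (r + 1)]
  rw [Finset.sum_add_distrib, sum_ite_ranks, ← sum_ite_ranks m r]
  congr 1
  refine Finset.sum_congr rfl fun X _ => ?_
  by_cases h : X.rank = r
  · rw [if_pos (by omega), if_pos h, h]
  · rw [if_neg (by omega), if_neg h]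

/-- There are no matrices of rank greater than the size. -/
lemma card_ranks_of_lt {m r : ℕ} (h : m < r) : (ranks F m r).card = 0 := by
  rw [Finset.card_eq_zero, Finset.eq_empty_iff_forall_notMem]
  intro X hX
  have h1 := (mem_ranks.1 hX).2
  have h2 := X.rank_le_width
  omega

lemma card_ranks_zero : (ranks F 0 0).card = 1 := by
  rw [Finset.card_eq_one]
  refine ⟨0, ?_⟩
  ext X
  rw [mem_ranks, Finset.mem_singleton]
  constructor
  · intro _
    exact Subsingleton.elim _ _
  · rintro rfl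
    exact ⟨⟨fun i => i.elim0, by simp⟩, by simp⟩

/-- The total count is the sum over the ranks. -/
lemma card_mats_eq_sum (m : ℕ) : (mats F m).card = ∑ r ∈ range (m + 1), (ranks F m r).card := by
  have h := Finset.card_eq_sum_card_fiberwise (f := fun X : Matrix (Fin m) (Fin m) F => X.rank)
    (s := mats F m) (t := range (m + 1)) (fun X _ => by
      have := X.rank_le_width
      simp only [Finset.coe_range, Set.mem_Iio]
      omega)
  exact h

end Pool.Agent.Y106.QT
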