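import Pool.Agent.Y106.QT.Col

/-!
# The recursion for the number of pairs
-/

open Finset Matrix
open scoped Classical

set_option linter.unusedSectionVars false

namespace Pool.Agent.Y106.QT

variable {F : Type*} [Field F] [Fintype F]

/-- The vectors whose last non-zero coordinate is `k`. -/
noncomputable def vecs (F : Type*) [Field F] [Fintype F] (m : ℕ) (k : Fin m) :
    Finset (Fin m → F) :=
  Fintype.piFinset fun i => if i < k then univ else if i = k then univ.erase 0 else {0}

lemma mem_vecs {m : ℕ} {k : Fin m} {v : Fin m → F} :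
    v ∈ vecs F m k ↔ v k ≠ 0 ∧ ∀ i, k < i → v i = 0 := by
  rw [vecs, Fintype.mem_piFinset]
  constructor
  · intro h
    refine ⟨by simpa using h k, fun i hi => ?_⟩
    have := h i
    rw [if_neg (not_lt.2 hi.le), if_neg hi.ne'] at this
    simpa using this
  · rintro ⟨h1, h2⟩ i
    rcases lt_trichotomy i k with h | h | h
    · rw [if_pos h]; simp
    · subst h; simpa using h1
    · rw [if_neg (not_lt.2 h.le), if_neg h.ne']
      simpa using h2 i h

lemma card_vecs (m : ℕ) (k : Fin m) :
    (vecs F m k).card = Fintype.card F ^ (k : ℕ) * (Fintype.card F - 1) := by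
  rw [vecs, Fintype.card_piFinset]
  have h1 : ∀ i : Fin m, (if i < k then (univ : Finset F) else
      if i = k then univ.erase 0 else {0}).card =
      (if i < k then Fintype.card F else 1) * (if i = k then Fintype.card F - 1 else 1) := by
    intro i
    by_cases h : i < k
    · rw [if_pos h, if_pos h, if_neg h.ne, mul_one, Finset.card_univ]
    · rw [if_neg h, if_neg h]
      by_cases h' : i = k
      · rw [if_pos h', if_pos h', one_mul, Finset.card_erase_of_mem (mem_univ _),
          Finset.card_univ]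
      · rw [if_neg h', if_neg h', card_singleton]
  rw [Finset.prod_congr rfl (fun i _ => h1 i), Finset.prod_mul_distrib, Finset.prod_ite_eq',
    if_pos (mem_univ _), Finset.prod_ite, Finset.prod_const, Finset.prod_const_one, mul_one]
  congr 2
  have : (univ.filter fun i : Fin m => i < k) = Finset.Iio k := by ext; simp
  rw [this, Fin.card_Iio]

/-- The matrix which agrees with the identity except that its column `k` is `v`. -/
def shear {m : ℕ} (k : Fin m) (v : Fin m → F) : Matrix (Fin m) (Fin m) F :=
  (1 : Matrix (Fin m) (Fin m) F).updateCol k v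

lemma shear_mul_apply {m : ℕ} (k : Fin m) (v : Fin m → F) (w : Fin m → F) (i : Fin m) :
    (shear k v).mulVec w i = (if i = k then 0 else w i) + v i * w k := by
  rw [Matrix.mulVec, dotProduct, ← Finset.sum_erase_add _ _ (mem_univ k)]
  congr 1
  · by_cases h : i = k
    · rw [if_pos h]
      apply Finset.sum_eq_zero
      intro j hj
      rw [shear, Matrix.updateCol_ne (Finset.ne_of_mem_erase hj), h,
        Matrix.one_apply_ne (Finset.ne_of_mem_erase hj).symm, zero_mul]
    · rw [if_neg h, Finset.sum_eq_single i]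
      · rw [shear, Matrix.updateCol_ne h, Matrix.one_apply_eq, one_mul]
      · intro j hj hji
        rw [shear, Matrix.updateCol_ne (Finset.ne_of_mem_erase hj),
          Matrix.one_apply_ne hji.symm, zero_mul]
      · intro h'
        exact absurd (Finset.mem_erase.2 ⟨h, mem_univ _⟩) h'
  · rw [shear, Matrix.updateCol_self]

/-- The column of the inverse. -/
noncomputable def invCol {m : ℕ} (k : Fin m) (v : Fin m → F) : Fin m → F :=
  fun i => if i = k then (v k)⁻¹ else - (v i * (v k)⁻¹)

lemma shear_shear {m : ℕ} {k : Fin m} {v : Fin m → F} (hv : v k ≠ 0) :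
    shear k v * shear k (invCol k v) = 1 := by
  apply Matrix.toLin'.injective
  rw [Matrix.toLin'_mul, Matrix.toLin'_one]
  apply LinearMap.ext
  intro w
  rw [LinearMap.comp_apply, Matrix.toLin'_apply, Matrix.toLin'_apply, LinearMap.id_apply]
  funext i
  rw [shear_mul_apply, shear_mul_apply, shear_mul_apply, if_pos rfl, zero_add]
  by_cases h : i = k
  · subst h
    rw [if_pos rfl, zero_add, invCol, if_pos rfl]
    field_simp
  · rw [if_neg h, if_neg h, invCol, invCol, if_neg h, if_pos rfl]
    field_simp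
    ring

lemma shear_shear' {m : ℕ} {k : Fin m} {v : Fin m → F} (hv : v k ≠ 0) :
    shear k (invCol k v) * shear k v = 1 := by
  exact mul_eq_one_comm.1 (shear_shear hv)

lemma shear_upper {m : ℕ} {k : Fin m} {v : Fin m → F} (hv : ∀ i, k < i → v i = 0) :
    IsUpper (shear k v) := by
  intro i j hij
  by_cases h : j = k
  · subst h
    rw [shear, Matrix.updateCol_self]
    exact hv i hij
  · rw [shear, Matrix.updateCol_ne h, Matrix.one_apply_ne hij.ne']

lemma invCol_zero {m : ℕ} {k : Fin m} {v : Fin m → F} (hv : ∀ i, k < i → v i = 0) :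
    ∀ i, k < i → invCol k v i = 0 := by
  intro i hi
  rw [invCol, if_neg hi.ne', hv i hi, zero_mul, neg_zero]

lemma sandwich_sq {m : ℕ} {G H X : Matrix (Fin m) (Fin m) F} (hGH : G * H = 1)
    (hX : X * X = 0) : H * X * G * (H * X * G) = 0 := by
  rw [show H * X * G * (H * X * G) = H * X * (G * H) * X * G by simp only [Matrix.mul_assoc],
    hGH, Matrix.mul_one, Matrix.mul_assoc H X X, hX, Matrix.mul_zero, Matrix.zero_mul]

lemma sandwich_inv {m : ℕ} {G H X : Matrix (Fin m) (Fin m) F} (hGH : G * H = 1) :
    G * (H * X * G) * H = X := by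
  rw [show G * (H * X * G) * H = (G * H) * X * (G * H) by simp only [Matrix.mul_assoc], hGH,
    Matrix.mul_one, Matrix.one_mul]

lemma col_zero {m : ℕ} {k : Fin m} {v : Fin m → F} {H X : Matrix (Fin m) (Fin m) F}
    (hX : X.mulVec v = 0) (i : Fin m) : (H * X * shear k v) i k = 0 := by
  rw [Matrix.mul_assoc, Matrix.mul_apply]
  apply Finset.sum_eq_zero
  intro l _
  have h1 : (X * shear k v) l k = X.mulVec v l := by
    rw [Matrix.mul_apply, Matrix.mulVec, dotProduct]
    apply Finset.sum_congr rfl
    intro j _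
    rw [shear, Matrix.updateCol_self]
  rw [h1, hX, Pi.zero_apply, mul_zero]

lemma mulVec_zero' {m : ℕ} {k : Fin m} {v : Fin m → F} (hv : v k ≠ 0)
    {G Y : Matrix (Fin m) (Fin m) F} (hY : ∀ i, Y i k = 0) :
    (G * Y * shear k (invCol k v)).mulVec v = 0 := by
  have h1 : (shear k (invCol k v)).mulVec v = Pi.single k 1 := by
    funext i
    rw [shear_mul_apply, invCol]
    by_cases h : i = k
    · subst h
      rw [if_pos rfl, if_pos rfl, zero_add, inv_mul_cancel₀ hv, Pi.single_eq_same]
    · rw [if_neg h, if_neg h, Pi.single_eq_of_ne h]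
      field_simp
      ring
  have h2 : Y.mulVec (Pi.single k 1) = 0 := by
    rw [Matrix.mulVec_single_one]
    funext i
    exact hY i
  rw [← Matrix.mulVec_mulVec, h1, ← Matrix.mulVec_mulVec, h2, Matrix.mulVec_zero]

/-- **The recursion.** -/
theorem card_pairs_succ (m : ℕ) (k : Fin m) :
    (pairs F m (k + 1)).card = (pairs F m k).card +
      Fintype.card F ^ (k : ℕ) * (Fintype.card F - 1) * (colz F m k).card := by
  rw [← Finset.card_filter_add_card_filter_not (s := pairs F m (k + 1)) (fun p => p.2 k = 0)]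
  congr 1
  · congr 1
    ext p
    rw [mem_filter, mem_pairs, mem_pairs]
    constructor
    · rintro ⟨⟨h1, h2, h3⟩, h4⟩
      refine ⟨h1, h2, fun i hi => ?_⟩
      rcases eq_or_lt_of_le hi with h | h
      · have h5 : i = k := (Fin.ext h).symm
        rw [h5]; exact h4
      · exact h3 i h
    · rintro ⟨h1, h2, h3⟩
      exact ⟨⟨h1, h2, fun i hi => h3 i (by omega)⟩, h3 k le_rfl⟩
  · rw [← card_vecs, ← Finset.card_product]
    refine Finset.card_nbij'
      (fun p => (p.2, shear k (invCol k p.2) * p.1 * shear k p.2))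
      (fun p => (shear k p.1 * p.2 * shear k (invCol k p.1), p.1)) ?_ ?_ ?_ ?_
    · rintro ⟨X, v⟩ hp
      obtain ⟨hp, hk⟩ := mem_filter.1 hp
      obtain ⟨⟨h1, h2⟩, h3, h4⟩ := mem_pairs.1 hp
      have hv : v ∈ vecs F m k := mem_vecs.2 ⟨hk, fun i hi => h4 i hi⟩
      have hv' := (mem_vecs.1 hv).2
      refine Finset.mem_product.2 ⟨hv, mem_colz.2 ⟨⟨?_, ?_⟩, ?_⟩⟩
      · exact (h1.upper_mul (shear_upper (invCol_zero hv'))).mul_upper (shear_upper hv')
      · exact sandwich_sq (shear_shear hk) h2
      · exact fun i => col_zero h3 i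
    · rintro ⟨v, Y⟩ hp
      obtain ⟨hv, hY⟩ := Finset.mem_product.1 hp
      obtain ⟨hk, hv'⟩ := mem_vecs.1 hv
      obtain ⟨⟨h1, h2⟩, h3⟩ := mem_colz.1 hY
      refine mem_filter.2 ⟨mem_pairs.2 ⟨⟨?_, ?_⟩, ?_, ?_⟩, hk⟩
      · exact (h1.upper_mul (shear_upper hv')).mul_upper (shear_upper (invCol_zero hv'))
      · exact sandwich_sq (shear_shear' hk) h2
      · exact mulVec_zero' hk h3
      · intro i hi
        exact hv' i hi
    · rintro ⟨X, v⟩ hp
      obtain ⟨hp, hk⟩ := mem_filter.1 hp
      exact Prod.ext (sandwich_inv (shear_shear hk)) rfl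
    · rintro ⟨v, Y⟩ hp
      obtain ⟨hv, hY⟩ := Finset.mem_product.1 hp
      exact Prod.ext rfl (sandwich_inv (shear_shear' (mem_vecs.1 hv).1))

end Pool.Agent.Y106.QT
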